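import Mathlib

/-!
# MP_56aac4_co : not every value in the Tesman range is a span

For `n = 4`, `k = 3` and every `r ≥ 3` the value `s = 2 r + 10` lies strictly inside the range
`(r+1)(k-1)+2(n-1) ≤ s ≤ (n+r)k-(r+1)`, but no finite graph whatsoever has
`sp_T^4(G) = 2 r + 10` for `T = {0, …, r}`.
-/

namespace Pool.Agent.Results.MP_56aac4_co.SpanGap

open Finset

/-- `S` is an `n`-tuple `T`-colouring of `G` for `T = {0, …, r}`. -/
def IsTCol {V : Type} (r n : ℕ) (G : SimpleGraph V) (S : V → Finset ℕ) : Prop :=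
  (∀ x, (S x).card = n ∧ ∀ a ∈ S x, 0 < a) ∧
  ∀ x y, G.Adj x y → ∀ a ∈ S x, ∀ b ∈ S y, ¬ (((a : ℤ) - (b : ℤ)).natAbs ≤ r)

/-- `s` is the span of `S`: largest colour used minus smallest colour used. -/
def HasSpan {V : Type} (S : V → Finset ℕ) (s : ℕ) : Prop :=
  ∃ lo hi : ℕ, (∃ x, lo ∈ S x) ∧ (∃ x, hi ∈ S x) ∧ (∀ x, ∀ c ∈ S x, lo ≤ c ∧ c ≤ hi) ∧
    s = hi - lo

/-- The minimum span over all `n`-tuple `T`-colourings. -/
noncomputable def sp {V : Type} (r n : ℕ) (G : SimpleGraph V) : ℕ :=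
  sInf {s | ∃ S : V → Finset ℕ, IsTCol r n G S ∧ HasSpan S s}

/-- The class of a 4-set with minimum `lo` and maximum `hi`. -/
def cls (r lo hi : ℕ) : ℕ :=
  if hi ≤ 5 then 2 else if hi ≤ r + 6 then 4 else if lo ≤ r then 0 else if lo ≤ r + 6 then 1 else 3

/-- Adjacency in the 5-cycle `0,1,2,3,4`. -/
def c5 (x y : ℕ) : Prop :=
  (x = 0 ∧ y = 1) ∨ (x = 1 ∧ y = 2) ∨ (x = 2 ∧ y = 3) ∨ (x = 3 ∧ y = 4) ∨ (x = 4 ∧ y = 0) ∨
  (x = 1 ∧ y = 0) ∨ (x = 2 ∧ y = 1) ∨ (x = 3 ∧ y = 2) ∨ (x = 4 ∧ y = 3) ∨ (x = 0 ∧ y = 4)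

lemma key (r a0 a1 a2 a3 b0 b1 b2 b3 : ℕ) (hr : 3 ≤ r)
    (ha : a0 < a1) (ha' : a1 < a2) (ha'' : a2 < a3) (hb : b0 < b1) (hb' : b1 < b2) (hb'' : b2 < b3)
    (h1 : a3 ≤ 2 * r + 10) (h2 : b3 ≤ 2 * r + 10)
    (h00 : a0 + r < b0)
    (h10 : a1 + r < b0 ∨ b0 + r < a1) (h11 : a1 + r < b1 ∨ b1 + r < a1)
    (h12 : a1 + r < b2 ∨ b2 + r < a1) (h13 : a1 + r < b3 ∨ b3 + r < a1)
    (h20 : a2 + r < b0 ∨ b0 + r < a2) (h21 : a2 + r < b1 ∨ b1 + r < a2)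
    (h22 : a2 + r < b2 ∨ b2 + r < a2) (h23 : a2 + r < b3 ∨ b3 + r < a2)
    (h30 : a3 + r < b0 ∨ b0 + r < a3) (h31 : a3 + r < b1 ∨ b1 + r < a3)
    (h32 : a3 + r < b2 ∨ b2 + r < a3) (h33 : a3 + r < b3 ∨ b3 + r < a3) :
    c5 (cls r a0 a3) (cls r b0 b3) := by
  unfold cls
  split_ifs <;> (unfold c5; omega)

lemma c5_symm {x y : ℕ} (h : c5 x y) : c5 y x := by
  unfold c5 at *; omega

/-- A 4-set as an increasing quadruple. -/
lemma four (A : Finset ℕ) (hA : A.card = 4) : ∃ a0 a1 a2 a3, a0 < a1 ∧ a1 < a2 ∧ a2 < a3 ∧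
    a0 ∈ A ∧ a1 ∈ A ∧ a2 ∈ A ∧ a3 ∈ A ∧ (∀ c ∈ A, a0 ≤ c ∧ c ≤ a3) := by
  have hne : A.Nonempty := by rw [← Finset.card_pos]; omega
  refine ⟨A.orderEmbOfFin hA 0, A.orderEmbOfFin hA 1, A.orderEmbOfFin hA 2,
    A.orderEmbOfFin hA 3, ?_, ?_, ?_, Finset.orderEmbOfFin_mem _ _ _,
    Finset.orderEmbOfFin_mem _ _ _, Finset.orderEmbOfFin_mem _ _ _,
    Finset.orderEmbOfFin_mem _ _ _, ?_⟩
  · exact (A.orderEmbOfFin hA).strictMono (by decide)
  · exact (A.orderEmbOfFin hA).strictMono (by decide)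
  · exact (A.orderEmbOfFin hA).strictMono (by decide)
  · intro c hc
    have h1 : c ∈ Set.range (A.orderEmbOfFin hA) := by
      rw [Finset.range_orderEmbOfFin]; exact hc
    obtain ⟨i, rfl⟩ := h1
    constructor
    · exact (A.orderEmbOfFin hA).monotone (Fin.zero_le i)
    · exact (A.orderEmbOfFin hA).monotone (by omega)

/-- The images of the five classes. -/
def img (r : ℕ) : ℕ → Finset ℕ
  | 0 => {1, 2, 2 * r + 9, 2 * r + 10}
  | 1 => {r + 5, r + 6, r + 7, r + 8}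
  | 2 => {1, 2, 3, 4}
  | 3 => {2 * r + 7, 2 * r + 8, 2 * r + 9, 2 * r + 10}
  | _ => {r + 3, r + 4, r + 5, r + 6}

lemma img_card (r c : ℕ) : (img r c).card = 4 := by
  have h4 : ∀ a b c d : ℕ, a < b → b < c → c < d → ({a, b, c, d} : Finset ℕ).card = 4 := by
    intro a b c d h1 h2 h3
    rw [Finset.card_insert_of_notMem, Finset.card_insert_of_notMem,
      Finset.card_insert_of_notMem, Finset.card_singleton]
    · simp; omega
    · simp; omega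
    · simp; omega
  unfold img
  split <;> (apply h4 <;> omega)

lemma img_mem (r c : ℕ) : ∀ a ∈ img r c, 1 ≤ a ∧ a ≤ 2 * r + 10 := by
  intro a ha
  unfold img at ha
  split at ha <;> (simp only [mem_insert, mem_singleton] at ha; omega)

lemma img_far (r x y : ℕ) (h : c5 x y) : ∀ a ∈ img r x, ∀ b ∈ img r y,
    ¬ (((a : ℤ) - (b : ℤ)).natAbs ≤ r) := by
  intro a ha b hb
  unfold c5 at h
  rcases h with ⟨rfl, rfl⟩ | ⟨rfl, rfl⟩ | ⟨rfl, rfl⟩ | ⟨rfl, rfl⟩ | ⟨rfl, rfl⟩ | ⟨rfl, rfl⟩ |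
    ⟨rfl, rfl⟩ | ⟨rfl, rfl⟩ | ⟨rfl, rfl⟩ | ⟨rfl, rfl⟩ <;>
  (simp only [img, mem_insert, mem_singleton] at ha hb; omega)

/-- Any colouring of span at most `2 r + 10` can be replaced by one of span at most `2 r + 9`. -/
lemma reduce {V : Type} [Nonempty V] [Finite V] (r : ℕ) (hr : 3 ≤ r) (G : SimpleGraph V)
    (S : V → Finset ℕ) (hS : IsTCol r 4 G S) (hsp : HasSpan S (2 * r + 10)) :
    ∃ S' : V → Finset ℕ, IsTCol r 4 G S' ∧ ∃ s ≤ 2 * r + 9, HasSpan S' s := by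
  classical
  obtain ⟨lo, hi, hlo, hhi, hall, hs⟩ := hsp
  have hlohi : lo ≤ hi := by
    obtain ⟨x, hx⟩ := hlo
    exact (hall x lo hx).2
  have hq : ∀ x : V, ∃ q : Fin 4 → ℕ, q 0 < q 1 ∧ q 1 < q 2 ∧ q 2 < q 3 ∧
      (q 0 + lo ∈ S x ∧ q 1 + lo ∈ S x ∧ q 2 + lo ∈ S x ∧ q 3 + lo ∈ S x) ∧
      q 3 ≤ 2 * r + 10 := by
    intro x
    obtain ⟨a0, a1, a2, a3, h1, h2, h3, m0, m1, m2, m3, -⟩ := four (S x) (hS.1 x).1
    have g0 := hall x a0 m0
    have g1 := hall x a1 m1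
    have g2 := hall x a2 m2
    have g3 := hall x a3 m3
    refine ⟨![a0 - lo, a1 - lo, a2 - lo, a3 - lo], ?_⟩
    simp only [Matrix.cons_val_zero, Matrix.cons_val_one, Matrix.cons_val]
    rw [Nat.sub_add_cancel g0.1, Nat.sub_add_cancel g1.1, Nat.sub_add_cancel g2.1,
      Nat.sub_add_cancel g3.1]
    refine ⟨by omega, by omega, by omega, ⟨m0, m1, m2, m3⟩, by omega⟩
  choose q hq01 hq12 hq23 hqm hqb using hq
  let S' : V → Finset ℕ := fun x => img r (cls r (q x 0) (q x 3))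
  have hcol : IsTCol r 4 G S' := by
    refine ⟨fun x => ⟨img_card _ _, fun a ha => (img_mem _ _ a ha).1⟩, ?_⟩
    intro x y hxy
    apply img_far
    have hfar : ∀ i j : ℕ, i + lo ∈ S x → j + lo ∈ S y → (i + r < j ∨ j + r < i) := by
      intro i j hi' hj'
      have := hS.2 x y hxy _ hi' _ hj'
      push_cast at this
      omega
    obtain ⟨x0, x1, x2, x3⟩ := hqm x
    obtain ⟨y0, y1, y2, y3⟩ := hqm y
    rcases hfar _ _ x0 y0 with h00 | h00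
    · exact key r _ _ _ _ _ _ _ _ hr (hq01 x) (hq12 x) (hq23 x) (hq01 y) (hq12 y) (hq23 y)
        (hqb x) (hqb y) h00
        (hfar _ _ x1 y0) (hfar _ _ x1 y1) (hfar _ _ x1 y2) (hfar _ _ x1 y3)
        (hfar _ _ x2 y0) (hfar _ _ x2 y1) (hfar _ _ x2 y2) (hfar _ _ x2 y3)
        (hfar _ _ x3 y0) (hfar _ _ x3 y1) (hfar _ _ x3 y2) (hfar _ _ x3 y3)
    · apply c5_symm
      exact key r _ _ _ _ _ _ _ _ hr (hq01 y) (hq12 y) (hq23 y) (hq01 x) (hq12 x) (hq23 x)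
        (hqb y) (hqb x) h00
        (hfar _ _ x0 y1).symm (hfar _ _ x1 y1).symm (hfar _ _ x2 y1).symm (hfar _ _ x3 y1).symm
        (hfar _ _ x0 y2).symm (hfar _ _ x1 y2).symm (hfar _ _ x2 y2).symm (hfar _ _ x3 y2).symm
        (hfar _ _ x0 y3).symm (hfar _ _ x1 y3).symm (hfar _ _ x2 y3).symm (hfar _ _ x3 y3).symm
  refine ⟨S', hcol, ?_⟩
  -- the span of `S'`
  have := Fintype.ofFinite V
  let U : Finset ℕ := (univ : Finset V).biUnion S'
  have hUne : U.Nonempty := by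
    obtain ⟨x⟩ := (inferInstance : Nonempty V)
    have : (S' x).Nonempty := by
      rw [← Finset.card_pos, (hcol.1 x).1]; norm_num
    obtain ⟨a, ha⟩ := this
    exact ⟨a, Finset.mem_biUnion.2 ⟨x, Finset.mem_univ _, ha⟩⟩
  have hmin := Finset.min'_mem U hUne
  have hmax := Finset.max'_mem U hUne
  obtain ⟨x1, -, hx1⟩ := Finset.mem_biUnion.1 hmin
  obtain ⟨x2, -, hx2⟩ := Finset.mem_biUnion.1 hmax
  refine ⟨U.max' hUne - U.min' hUne, ?_, U.min' hUne, U.max' hUne, ⟨x1, hx1⟩, ⟨x2, hx2⟩, ?_, rfl⟩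
  · have h1 := (img_mem _ _ _ hx1).1
    have h2 := (img_mem _ _ _ hx2).2
    omega
  · intro x c hc
    have hcU : c ∈ U := Finset.mem_biUnion.2 ⟨x, Finset.mem_univ _, hc⟩
    exact ⟨Finset.min'_le _ _ hcU, Finset.le_max' _ _ hcU⟩

/-- For `n = 4` and every `r ≥ 3`, no finite graph has minimum span `2 r + 10`. -/
theorem no_graph {V : Type} [Finite V] (r : ℕ) (hr : 3 ≤ r) (G : SimpleGraph V) :
    sp r 4 G ≠ 2 * r + 10 := by
  intro h
  have hne : ({s | ∃ S : V → Finset ℕ, IsTCol r 4 G S ∧ HasSpan S s} : Set ℕ).Nonempty := by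
    by_contra hcon
    rw [Set.not_nonempty_iff_eq_empty] at hcon
    unfold sp at h
    rw [hcon, Nat.sInf_empty] at h
    omega
  have hmem := Nat.sInf_mem hne
  change sp r 4 G ∈ _ at hmem
  rw [h] at hmem
  obtain ⟨S, hS, hspan⟩ := hmem
  have hV : Nonempty V := by
    obtain ⟨lo, hi, ⟨x, -⟩, -⟩ := hspan
    exact ⟨x⟩
  obtain ⟨S', hS', s, hs, hs'⟩ := reduce r hr G S hS hspan
  have : sp r 4 G ≤ s := Nat.sInf_le ⟨S', hS', hs'⟩
  omega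

/-- The answer to Q1 is negative: for `n = 4`, `k = 3` and every `r ≥ 3` the value
`s = 2 r + 10` lies in the range but is not the span of any finite graph. -/
theorem result :
    (∀ r : ℕ, 3 ≤ r →
      (r + 1) * (3 - 1) + 2 * (4 - 1) ≤ 2 * r + 10 ∧ (2 * r + 10) + (r + 1) ≤ (4 + r) * 3 ∧
      ∀ (V : Type) [Finite V] (G : SimpleGraph V), sp r 4 G ≠ 2 * r + 10) ∧
    ¬ (∀ r n k s : ℕ, 1 ≤ n → 2 ≤ k → (r + 1) * (k - 1) + 2 * (n - 1) ≤ s →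
        s + (r + 1) ≤ (n + r) * k →
        ∃ (V : Type) (_ : Finite V) (G : SimpleGraph V), G.chromaticNumber = k ∧ sp r n G = s) := by
  constructor
  · intro r hr
    exact ⟨by omega, by omega, fun V _ G => no_graph r hr G⟩
  · intro h
    obtain ⟨V, hV, G, -, hG⟩ := h 3 4 3 16 (by norm_num) (by norm_num) (by norm_num) (by norm_num)
    exact no_graph 3 le_rfl G hG

end Pool.Agent.Results.MP_56aac4_co.SpanGap
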